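import Mathlib

/-! Two probabilistic inequalities on the discrete cube. -/

namespace Pool.Agent.H.MP_e6b4fa_co
open Finset Classical

variable {V : Type} [Fintype V]

lemma khin (φ : V → ℝ) (t : ℝ) (t0 : 0 ≤ t) (h : Fintype.card V * t ^ 2 ≤ 1) :
    2 ^ Fintype.card V * (t * ∑ b, |φ b|) ≤
      2 * ∑ ε : V → Bool, |∑ b, φ b * if ε b then 1 else -1| := by
  let s : V → ℝ := fun b => if 0 ≤ φ b then t else -t
  let r : Bool → ℝ := fun e => if e then 1 else -1
  let Φ : (V → Bool) → ℂ := fun ε => ∏ b, (1 + (s b * r (ε b) : ℝ) * Complex.I)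
  have h1 : ∀ ε, ‖Φ ε‖ ≤ 2 := fun ε => by
    have : ‖Φ ε‖ ^ 2 ≤ 2 ^ 2 := by
      rw [norm_prod, ← prod_pow]
      calc _ ≤ ∏ _b : V, Real.exp (t ^ 2) := prod_le_prod (fun _ _ => by positivity) fun b _ => by
            have : (s b * r (ε b)) ^ 2 = t ^ 2 := by simp only [s, r]; split_ifs <;> ring
            have := Real.add_one_le_exp (t ^ 2)
            rw [Complex.sq_norm, ← Complex.ofReal_one, Complex.normSq_add_mul_I]
            linarith
        _ ≤ _ := by
            rw [prod_const, ← Real.exp_nat_mul]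
            linarith [Real.exp_le_exp.mpr h, Real.exp_one_lt_d9, card_univ (α := V) ▸
              Real.exp_le_exp.mpr h]
    exact (pow_le_pow_iff_left₀ (norm_nonneg _) two_pos.le two_ne_zero).mp this
  have h2 : ∀ j, ∑ ε : V → Bool, r (ε j) * Φ ε = 2 ^ Fintype.card V * (s j * Complex.I) := fun j => by
    have := prod_univ_sum (fun _ : V => (univ : Finset Bool)) fun b e =>
      (if b = j then (r e : ℂ) else 1) * (1 + (s b * r e : ℝ) * Complex.I)
    simp only [prod_mul_distrib, prod_ite_eq', mem_univ, if_true, Fintype.piFinset_univ] at this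
    rw [← this]
    calc _ = ∏ b, 2 * (if b = j then s j * Complex.I else 1) := prod_congr rfl fun b _ => by
          by_cases e : b = j <;> simp [e, r] <;> ring
      _ = _ := by rw [prod_mul_distrib]; simp
  have h3 : ∑ ε : V → Bool, (∑ b, φ b * r (ε b)) * (Φ ε).im =
      2 ^ Fintype.card V * (t * ∑ b, |φ b|) := by
    simp only [sum_mul, mul_sum]
    rw [sum_comm]
    refine sum_congr rfl fun j _ => ?_
    have := congrArg Complex.im (h2 j)
    simp only [Complex.im_sum, Complex.im_ofReal_mul] at this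
    simp only [mul_assoc, ← mul_sum, this]
    have : φ j * s j = t * |φ j| := by
      simp only [s]
      split_ifs with c
      · rw [abs_of_nonneg c, mul_comm]
      · rw [abs_of_neg (not_le.mp c)]; ring
    rw [← Complex.ofReal_ofNat, ← Complex.ofReal_pow, Complex.im_ofReal_mul, ← this]
    simp
    ring
  rw [← h3, mul_sum]
  refine sum_le_sum fun ε _ => (le_abs_self _).trans ?_
  rw [abs_mul, mul_comm]
  exact mul_le_mul_of_nonneg_right ((Complex.abs_im_le_norm _).trans (h1 ε)) (abs_nonneg _)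

lemma cut (φ : V → V → ℝ) (L t : ℝ) (t0 : 0 ≤ t) (h : Fintype.card V * t ^ 2 ≤ 1)
    (c : ∀ A B : Finset V, |∑ a ∈ A, ∑ b ∈ B, φ a b| ≤ L) : t * ∑ a, ∑ b, |φ a b| ≤ 8 * L := by
  have h1 : ∀ ε : V → Bool, ∑ a, |∑ b, φ a b * if ε b then 1 else -1| ≤ 4 * L := fun ε => by
    have k : ∀ B : Finset V, ∑ a, |∑ b ∈ B, φ a b| ≤ 2 * L := fun B => by
      rw [← sum_filter_add_sum_filter_not univ fun a => 0 ≤ ∑ b ∈ B, φ a b,
        sum_congr rfl fun a ha => abs_of_nonneg (mem_filter.mp ha).2,
        sum_congr rfl fun a ha => abs_of_neg (not_le.mp (mem_filter.mp ha).2), sum_neg_distrib]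
      linarith [(abs_le.mp (c (univ.filter fun a => 0 ≤ ∑ b ∈ B, φ a b) B)).2,
        (abs_le.mp (c (univ.filter fun a => ¬ 0 ≤ ∑ b ∈ B, φ a b) B)).1]
    have := add_le_add (k (univ.filter fun b => ε b)) (k (univ.filter fun b => ¬ ε b))
    rw [← sum_add_distrib] at this
    refine le_trans (sum_le_sum fun a _ => le_trans (le_of_eq ?_) (abs_sub _ _)) (by linarith)
    simp [sum_ite]
    rfl
  have h2 := sum_le_sum fun a (_ : a ∈ univ) => khin (φ a) t t0 h
  have h3 := sum_le_sum fun ε (_ : ε ∈ univ) => h1 ε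
  rw [← mul_sum, ← mul_sum, ← mul_sum, sum_comm (f := fun a (ε : V → Bool) => _)] at h2
  simp only [sum_const, card_univ, Fintype.card_fun, Fintype.card_bool, nsmul_eq_mul] at h3
  refine le_of_mul_le_mul_left ?_ (show (0 : ℝ) < 2 ^ Fintype.card V by positivity)
  push_cast at h3
  linarith

lemma mgf (c : ℝ) (N : ℕ) : ∀ f : (Fin N → Bool) → ℝ,
    (∀ ω i b, |f (Function.update ω i b) - f ω| ≤ c) →
    ∑ ω, Real.exp (f ω) ≤ 2 ^ N * Real.exp (N * c ^ 2 + (∑ ω, f ω) / 2 ^ N) := by
  induction N with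
  | zero => intro f _; simp
  | succ N ih =>
  intro f h
  have e : ∀ g : (Fin (N + 1) → Bool) → ℝ, ∑ ω, g ω =
      ∑ ω : Fin N → Bool, (g (Fin.cons true ω) + g (Fin.cons false ω)) := fun g => by
    rw [← (Fin.consEquiv fun _ => Bool).sum_comp, Fintype.sum_prod_type, Fintype.sum_bool,
      sum_add_distrib]
    rfl
  have := ih (fun ω => (f (Fin.cons true ω) + f (Fin.cons false ω)) / 2) fun ω i b => by
    have h1 := abs_le.mp (h (Fin.cons true ω) i.succ b)
    have h2 := abs_le.mp (h (Fin.cons false ω) i.succ b)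
    rw [← Fin.cons_update] at h1 h2
    exact abs_le.mpr ⟨by linarith, by linarith⟩
  rw [← sum_div, ← e] at this
  rw [e]
  calc _ ≤ ∑ ω : Fin N → Bool, 2 * Real.exp (c ^ 2) *
        Real.exp ((f (Fin.cons true ω) + f (Fin.cons false ω)) / 2) := sum_le_sum fun ω _ => by
        have h1 := h (Fin.cons false ω) 0 true
        rw [Fin.update_cons_zero] at h1
        generalize f (Fin.cons true ω) = x at *
        generalize f (Fin.cons false ω) = y at *
        have h2 := Real.cosh_le_exp_half_sq ((x - y) / 2)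
        have h3 : Real.exp (((x - y) / 2) ^ 2 / 2) ≤ Real.exp (c ^ 2) := Real.exp_le_exp.mpr (by
          nlinarith [sq_abs (x - y), abs_nonneg (x - y)])
        have h4 : Real.exp x + Real.exp y =
            2 * Real.cosh ((x - y) / 2) * Real.exp ((x + y) / 2) := by
          rw [Real.cosh_eq, mul_div_cancel₀ _ two_ne_zero, add_mul, ← Real.exp_add, ← Real.exp_add]
          ring_nf
        rw [h4]
        gcongr
        exact h2.trans h3
    _ ≤ _ := by
        rw [← mul_sum]
        refine (mul_le_mul_of_nonneg_left this (by positivity)).trans (le_of_eq ?_)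
        rw [mul_mul_mul_comm, ← Real.exp_add]
        push_cast
        ring_nf

end Pool.Agent.H.MP_e6b4fa_co
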