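import Pool.Agent.H.MP_e6b4fa_co.A

/-! Regular tuples of vertex sets and a counting lemma. -/

namespace Pool.Agent.H.MP_e6b4fa_co
open Finset Classical Fintype

variable {V : Type} {k : ℕ} {ε p : ℝ} {X Y : Finset V}

noncomputable def ind (q : Prop) : ℝ := if q then 1 else 0

def Reg (r : V → V → Prop) (ε p : ℝ) (X Y : Finset V) : Prop :=
  ∀ A ⊆ X, ∀ B ⊆ Y, |∑ a ∈ A, ∑ b ∈ B, (ind (r a b) - p)| ≤ ε * X.card * Y.card

lemma reg_of {G : SimpleGraph V} (h : G.IsUniform ε X Y) :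
    Reg G.Adj ε (G.edgeDensity X Y) X Y := fun A hA B hB => by
  have e : ∑ a ∈ A, ∑ b ∈ B, (ind (G.Adj a b) - G.edgeDensity X Y) =
      (G.edgeDensity A B - G.edgeDensity X Y : ℝ) * (A.card * B.card) := by
    have : (G.edgeDensity A B : ℝ) * (A.card * B.card) = ∑ a ∈ A, ∑ b ∈ B, ind (G.Adj a b) := by
      rw [← sum_product']
      by_cases c : (A.card * B.card : ℝ) = 0
      · have : A ×ˢ B = ∅ := by rw [← card_eq_zero, card_product]; exact_mod_cast c
        simp [c, this]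
      · simp [SimpleGraph.edgeDensity_def, div_mul_cancel₀ _ c, ind, SimpleGraph.interedges_def]
    simp only [sum_sub_distrib, sum_const, nsmul_eq_mul, sub_mul, this]
    ring
  have a1 : (A.card : ℝ) ≤ X.card := by exact_mod_cast card_le_card hA
  have b1 : (B.card : ℝ) ≤ Y.card := by exact_mod_cast card_le_card hB
  have e0 := h.pos
  have d : |(G.edgeDensity A B - G.edgeDensity X Y : ℝ)| ≤ 1 := by
    have k0 : ∀ A B, (0 : ℝ) ≤ G.edgeDensity A B := fun A B => by
      exact_mod_cast G.edgeDensity_nonneg A B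
    have k1 : ∀ A B, (G.edgeDensity A B : ℝ) ≤ 1 := fun A B => by
      exact_mod_cast G.edgeDensity_le_one A B
    exact abs_le.mpr ⟨by linarith [k0 A B, k1 X Y], by linarith [k0 X Y, k1 A B]⟩
  rw [e, abs_mul, abs_of_nonneg (by positivity : (0 : ℝ) ≤ A.card * B.card)]
  rcases le_or_gt (X.card * ε) A.card with c1 | c1
  · rcases le_or_gt (Y.card * ε) B.card with c2 | c2
    · rw [mul_assoc]
      gcongr
      exact (h hA hB c1 c2).le
    · calc _ ≤ 1 * (X.card * (Y.card * ε)) := by gcongr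
        _ = _ := by ring
  · calc _ ≤ 1 * (X.card * ε * Y.card) := by gcongr
      _ = _ := by ring

lemma Reg.compl {G : SimpleGraph V} (d : Disjoint X Y) (h : Reg G.Adj ε p X Y) :
    Reg Gᶜ.Adj ε (1 - p) X Y := fun A hA B hB => by
  refine le_trans (le_of_eq ?_) (h A hA B hB)
  rw [← abs_neg, ← sum_neg_distrib]
  refine congrArg _ (sum_congr rfl fun a ha => ?_)
  rw [← sum_neg_distrib]
  refine sum_congr rfl fun b hb => ?_
  have : a ≠ b := fun e => disjoint_left.mp d (hA ha) (e ▸ hB hb)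
  by_cases c : G.Adj a b <;> simp [ind, c, this]

lemma upd (U : Fin k → Finset V) (i : Fin k) (Ψ : (Fin k → V) → ℝ) :
    ∑ v ∈ piFinset U, ∑ a ∈ U i, Ψ (Function.update v i a) = (U i).card * ∑ v ∈ piFinset U, Ψ v := by
  rw [← sum_product', ← nsmul_eq_mul, ← sum_const, sum_comm, ← sum_product']
  have : ∀ q ∈ piFinset U ×ˢ U i, (Function.update q.1 i q.2, q.1 i) ∈ piFinset U ×ˢ U i := by
    simp only [mem_product, mem_piFinset]
    grind [Function.update_apply]
  exact sum_nbij' (fun q => (Function.update q.1 i q.2, q.1 i))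
    (fun q => (Function.update q.1 i q.2, q.1 i)) this this (by simp) (by simp) (by simp)

lemma cnt {r : V → V → Prop} {U : Fin k → Finset V} {p : Fin k → Fin k → ℝ} (e0 : 0 ≤ ε)
    (hp : ∀ i j, |p i j| ≤ 1) (R : ∀ i j, i < j → Reg r ε (p i j) (U i) (U j))
    (ne : ∀ i, (U i).Nonempty) (F : Finset (Fin k × Fin k)) (hF : ∀ e ∈ F, e.1 < e.2) :
    |∑ v ∈ piFinset U, ind (∀ e ∈ F, r (v e.1) (v e.2)) -
      (∏ e ∈ F, p e.1 e.2) * (piFinset U).card| ≤ F.card * ε * (piFinset U).card := by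
  induction F using Finset.induction_on with
  | empty => simp [ind]
  | insert e F n ih =>
  obtain ⟨i, j⟩ := e
  have ij : i < j := hF _ (mem_insert_self _ _)
  let Ψ : (Fin k → V) → ℝ := fun v => ind (∀ e ∈ F, r (v e.1) (v e.2)) * (ind (r (v i) (v j)) - p i j)
  have h1 : |∑ v ∈ piFinset U, Ψ v| ≤ ε * (piFinset U).card := by
    have c : (0 : ℝ) < (U i).card * (U j).card := by
      have := (ne i).card_pos
      have := (ne j).card_pos
      positivity
    refine le_of_mul_le_mul_left ?_ c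
    rw [← abs_of_pos c, ← abs_mul, abs_of_pos c, mul_right_comm, ← upd, mul_comm _ (card _ : ℝ),
      ← upd]
    refine (abs_sum_le_sum_abs _ _).trans ((sum_le_card_nsmul _ _ _ fun v _ => ?_).trans (le_of_eq
      (show _ • (ε * (U j).card * (U i).card) = _ by rw [nsmul_eq_mul]; ring)))
    let P : V → V → Prop := fun a b => ∀ e ∈ F,
      r (Function.update (Function.update v j b) i a e.1) (Function.update (Function.update v j b) i a e.2)
    have := R i j ij ((U i).filter fun a => ∃ b ∈ U j, P a b) (filter_subset _ _)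
      ((U j).filter fun b => ∃ a ∈ U i, P a b) (filter_subset _ _)
    rw [mul_right_comm, sum_comm]
    refine le_trans (le_of_eq (congrArg _ ?_)) this
    simp only [sum_filter]
    refine sum_congr rfl fun a ha => ?_
    have hP : ∀ b ∈ U j, P a b ↔ (∃ b ∈ U j, P a b) ∧ ∃ a ∈ U i, P a b := fun b hb =>
      ⟨fun h => ⟨⟨b, hb, h⟩, a, ha, h⟩, fun ⟨⟨b', _, h1⟩, a', _, h2⟩ e he => by
        have k1 := h1 e he
        have k2 := h2 e he
        have := hF e (mem_insert_of_mem he)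
        have : e ≠ (i, j) := fun q => n (q ▸ he)
        simp only [Function.update_apply] at *
        grind⟩
    split_ifs with c
    · refine sum_congr rfl fun b hb => ?_
      have : Ψ (Function.update (Function.update v j b) i a) = ind (P a b) * (ind (r a b) - p i j) := by
        simp [Ψ, P, ij.ne']
      rw [this, hP b hb]
      split_ifs with c' <;> simp [ind, c, c']
    · exact sum_eq_zero fun b hb => mul_eq_zero_of_left (if_neg fun h => c ⟨b, hb, h⟩) _
  have h2 := mul_le_mul (hp i j) (ih fun e he => hF e (mem_insert_of_mem he)) (abs_nonneg _)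
    zero_le_one
  rw [← abs_mul] at h2
  have h3 : ∀ v : Fin k → V, ind (∀ e ∈ insert (i, j) F, r (v e.1) (v e.2)) =
      Ψ v + p i j * ind (∀ e ∈ F, r (v e.1) (v e.2)) := fun v => by
    simp only [Ψ, forall_mem_insert, ind]
    split_ifs <;> simp_all
  simp only [h3, sum_add_distrib, ← mul_sum, prod_insert n, card_insert_of_notMem n]
  push_cast
  have := abs_le.mp h1
  have := abs_le.mp h2
  exact abs_le.mpr ⟨by linarith, by linarith⟩

lemma rams {α : Type} {R1 R2 : α → α → Prop} (s1 : ∀ x y, R1 x y → R1 y x)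
    (s2 : ∀ x y, R2 x y → R2 y x) (D s : ℕ) : ∀ a b, a + b = s → ∀ S : Finset α,
    (∀ x ∈ S, (S.filter fun y => ¬ R1 x y ∧ ¬ R2 x y).card ≤ D) →
    2 ^ s * (D + 1) ≤ S.card + (D + 1) → ∃ T ⊆ S, T.card = a ∧ (T : Set α).Pairwise R1 ∨
      T.card = b ∧ (T : Set α).Pairwise R2 := by
  induction s with
  | zero => exact fun a b e S _ _ => ⟨∅, by simp, by simp; omega⟩
  | succ s ih =>
  rintro (_ | a) b e S h c
  · exact ⟨∅, by simp⟩
  rcases b with _ | b
  · exact ⟨∅, by simp⟩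
  have c0 := Nat.mul_le_mul_right (D + 1) (Nat.one_le_two_pow (n := s))
  rw [pow_succ, mul_right_comm] at c
  obtain ⟨x, hx⟩ := card_pos.mp (show 0 < S.card by omega)
  have k : ∀ R : α → α → Prop, ∀ y ∈ (S.erase x).filter (R x), ((((S.erase x).filter (R x))).filter
      fun z => ¬ R1 y z ∧ ¬ R2 y z).card ≤ D := fun R y hy =>
    (card_le_card (by grind)).trans (h y (by grind))
  have : S.card ≤ ((S.erase x).filter (R1 x)).card + ((S.erase x).filter (R2 x)).card + D + 1 :=
    calc _ ≤ (insert x ((S.erase x).filter (R1 x) ∪ (S.erase x).filter (R2 x) ∪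
          S.filter fun y => ¬ R1 x y ∧ ¬ R2 x y)).card := card_le_card (by grind)
      _ ≤ _ := by grw [card_insert_le, card_union_le, card_union_le, h x hx]
  have I : ∀ R : α → α → Prop, (∀ x y, R x y → R y x) → ∀ T ⊆ (S.erase x).filter (R x),
      (T : Set α).Pairwise R → (insert x T).card = T.card + 1 ∧
        ((insert x T : Finset α) : Set α).Pairwise R := fun R s T hT h =>
    ⟨card_insert_of_notMem fun q => by simpa using hT q, by
      rw [coe_insert]
      exact h.insert fun y hy _ => ⟨(mem_filter.mp (hT hy)).2, s _ _ (mem_filter.mp (hT hy)).2⟩⟩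
  by_cases c1 : 2 ^ s * (D + 1) ≤ ((S.erase x).filter (R1 x)).card + (D + 1)
  · obtain ⟨T, hT, q | q⟩ := ih a (b + 1) (by omega) _ (k R1) c1
    · exact ⟨insert x T, by grind, Or.inl (q.1 ▸ I R1 s1 T hT q.2)⟩
    · exact ⟨T, by grind, Or.inr q⟩
  · obtain ⟨T, hT, q | q⟩ := ih (a + 1) b (by omega) _ (k R2) (by omega)
    · exact ⟨T, by grind, Or.inl q⟩
    · exact ⟨insert x T, by grind, Or.inr (q.1 ▸ I R2 s2 T hT q.2)⟩

lemma parts (k : ℕ) (e0 : 0 < ε) : ∃ B N : ℕ, ∀ (V : Type) [Fintype V] (G : SimpleGraph V),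
    N ≤ Fintype.card V → ∃ (U : Fin k → Finset V) (p : Fin k → Fin k → ℝ),
      (∀ i j, i ≠ j → Disjoint (U i) (U j)) ∧ (∀ i, Fintype.card V ≤ B * (U i).card) ∧
      (∀ i j, 0 ≤ p i j ∧ p i j ≤ 1) ∧ (∀ i j, i < j → Reg G.Adj ε (p i j) (U i) (U j)) ∧
      ((∀ i j, i < j → 1 / 2 ≤ p i j) ∨ ∀ i j, i < j → p i j ≤ 1 / 2) := by
  obtain ⟨Q, hQ⟩ : ∃ Q, Q = 2 ^ (k + k) := ⟨_, rfl⟩
  have Q0 : 0 < Q := by rw [hQ]; positivity
  obtain ⟨δ, d0, d1, d2⟩ : ∃ δ : ℝ, 0 < δ ∧ δ ≤ ε ∧ δ * (8 * Q) ≤ 1 :=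
    ⟨min ε (1 / (8 * Q)), by positivity, min_le_left _ _,
      (le_div_iff₀ (by positivity)).mp (min_le_right _ _)⟩
  refine ⟨2 * SzemerediRegularity.bound δ (4 * Q), 4 * Q + SzemerediRegularity.bound δ (4 * Q),
    fun V _ G hn => ?_⟩
  obtain ⟨P, P1, P2, P3, P4⟩ := szemeredi_regularity G d0 (l := 4 * Q) (by omega)
  generalize SzemerediRegularity.bound δ (4 * Q) = B at *
  obtain ⟨m, hm⟩ : ∃ m, m = P.parts.card := ⟨_, rfl⟩
  obtain ⟨D, D1, D2⟩ : ∃ D, 4 * (Q * D) ≤ m ∧ m < 4 * Q * (D + 1) :=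
    ⟨m / (4 * Q), mul_assoc 4 Q _ ▸ Nat.mul_div_le _ _, Nat.lt_mul_div_succ _ (by omega)⟩
  let b : Finset V → ℕ := fun x => ((P.nonUniforms G δ).filter fun q => q.1 = x).card
  have h1 : 2 * (P.parts.filter fun x => ¬ b x ≤ D).card ≤ m := by
    have k1 := card_nsmul_le_sum (P.parts.filter fun x => ¬ b x ≤ D) b (D + 1) fun x hx =>
      not_le.mp (mem_filter.mp hx).2
    have k2 := k1.trans (sum_le_sum_of_subset (filter_subset _ _))
    rw [← card_eq_sum_card_fiberwise fun q hq => (P.mk_mem_nonUniforms G |>.mp hq).1,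
      smul_eq_mul] at k2
    have k3 : ((P.nonUniforms G δ).card : ℝ) ≤ m * m * δ := P4.trans (by
      rw [← hm]
      gcongr
      exact_mod_cast Nat.mul_le_mul_left m (Nat.sub_le m 1))
    have k4 : 8 * Q * (P.nonUniforms G δ).card ≤ m * m := by
      have : (8 * Q * (P.nonUniforms G δ).card : ℝ) ≤ m * m := by
        nlinarith [mul_le_mul_of_nonneg_left k3 (by positivity : (0 : ℝ) ≤ 8 * Q),
          mul_le_mul_of_nonneg_left d2 (by positivity : (0 : ℝ) ≤ m * m)]
      exact_mod_cast this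
    refine Nat.le_of_mul_le_mul_left ?_ (show 0 < m by omega)
    nlinarith [Nat.mul_le_mul_left (8 * Q) k2,
      Nat.mul_le_mul_right (P.parts.filter fun x => ¬ b x ≤ D).card D2.le]
  have h2 := card_filter_add_card_filter_not (s := P.parts) fun x => b x ≤ D
  obtain ⟨T, hT, h⟩ := rams
    (R1 := fun x y => (x = y ∨ G.IsUniform δ x y) ∧ 1 / 2 ≤ (G.edgeDensity x y : ℝ))
    (R2 := fun x y => (x = y ∨ G.IsUniform δ x y) ∧ (G.edgeDensity x y : ℝ) ≤ 1 / 2)
    (fun x y h => ⟨h.1.imp .symm .symm, G.edgeDensity_comm x y ▸ h.2⟩)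
    (fun x y h => ⟨h.1.imp .symm .symm, G.edgeDensity_comm x y ▸ h.2⟩) D _ k k rfl
    (P.parts.filter fun x => b x ≤ D) (fun x hx => le_trans (card_le_card_of_injOn (x, ·)
      (fun y hy => by
        simp only [coe_filter, mem_filter, Set.mem_setOf_eq, Finpartition.mk_mem_nonUniforms] at *
        grind) (Prod.mk_right_injective x).injOn) (mem_filter.mp hx).2)
    (by rw [← hQ, mul_add]; omega)
  let e := (T.equivFinOfCardEq (h.elim And.left And.left)).symm
  have n : ∀ i j, i ≠ j → (e i).1 ≠ e j := fun i j n q => n (e.injective (Subtype.ext q))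
  have mp : ∀ i, (e i).1 ∈ P.parts := fun i => (mem_filter.mp (hT (e i).2)).1
  refine ⟨fun i => e i, fun i j => G.edgeDensity (e i) (e j), fun i j q =>
    P.disjoint (mp i) (mp j) (n i j q), fun i => ?_, fun i j =>
      ⟨Rat.cast_nonneg.mpr (G.edgeDensity_nonneg _ _), by
        simpa using Rat.cast_le (K := ℝ) |>.mpr (G.edgeDensity_le_one _ _)⟩, fun i j q A hA B hB => ?_,
    h.imp (fun h i j q => (h.2 (e i).2 (e j).2 (n i j q.ne)).2)
      fun h i j q => (h.2 (e i).2 (e j).2 (n i j q.ne)).2⟩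
  · have k1 := P1.average_le_card_part (mp i)
    rw [card_univ, ← hm] at k1
    have k2 := Nat.lt_mul_div_succ (Fintype.card V) (show 0 < m by omega)
    have k3 := Nat.div_pos (show m ≤ Fintype.card V by omega) (show 0 < m by omega)
    nlinarith [Nat.mul_le_mul (show m ≤ B by omega) (show Fintype.card V / m + 1 ≤ 2 * (e i).1.card by omega)]
  · refine (reg_of (Or.resolve_left (h.elim (fun h => (h.2 (e i).2 (e j).2 (n i j q.ne)).1)
      fun h => (h.2 (e i).2 (e j).2 (n i j q.ne)).1) (n i j q.ne)) A hA B hB).trans ?_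
    gcongr

end Pool.Agent.H.MP_e6b4fa_co
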