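import Pool.Agent.H.MP_e6b4fa_co.B

/-! The lower bound for labelled copies. -/

namespace Pool.Agent.H.MP_e6b4fa_co
open Finset Classical Fintype

variable {V : Type} {k : ℕ} [Fintype V] {M ε : ℝ}

def emb (H : SimpleGraph (Fin k)) (G : SimpleGraph V) (ψ : Fin k → V) : Prop :=
  ∀ i j, H.Adj i j → G.Adj (ψ i) (ψ j)

noncomputable def wt (H : SimpleGraph (Fin k)) (G : SimpleGraph V) (ψ : Fin k → V) : ℝ :=
  ind (emb H G ψ) - ind (emb H Gᶜ ψ)

noncomputable def tot (w : (Fin k → V) → ℝ) (S : Finset V) : ℝ :=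
  ∑ ψ : Fin k → V, ind (ψ.Injective ∧ ∀ i, ψ i ∈ S) * w ψ

lemma pol {w : (Fin k → V) → ℝ} (h : ∀ S, |tot w S| ≤ M) (A : Fin k → Finset V)
    (J : Finset (Fin k)) : ∀ S : Finset V, |∑ ψ : Fin k → V, ind ((ψ.Injective ∧ ∀ i, ψ i ∈ S) ∧
      ∀ j ∈ J, ∃ i, ψ i ∈ A j) * w ψ| ≤ 2 ^ J.card * M := by
  induction J using Finset.induction_on with
  | empty => simpa [tot] using h
  | insert j J n ih =>
  intro S
  have := (abs_sub _ _).trans (add_le_add (ih S) (ih (S \ A j)))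
  rw [← sum_sub_distrib] at this
  rw [card_insert_of_notMem n, pow_succ]
  refine le_trans (le_of_eq (congrArg _ (sum_congr rfl fun ψ _ => ?_))) (this.trans (by linarith))
  simp only [forall_mem_insert, mem_sdiff, forall_and, ← not_exists]
  generalize (∃ i, ψ i ∈ A j) = x
  by_cases x <;> simp [ind, *]

lemma trv {w : (Fin k → V) → ℝ} (h : ∀ S, |tot w S| ≤ M) (A : Fin k → Finset V)
    (d : ∀ i j, i ≠ j → Disjoint (A i) (A j)) :
    |∑ σ : Equiv.Perm (Fin k), ∑ v ∈ piFinset A, w (v ∘ σ)| ≤ 2 ^ k * M := by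
  have := pol h A univ univ
  have d' : ∀ i j x, x ∈ A i → x ∈ A j → i = j := fun i j x h1 h2 =>
    not_not.mp fun n => disjoint_left.mp (d i j n) h1 h2
  simp only [ind, ite_mul, one_mul, zero_mul, ← sum_filter, card_univ, Fintype.card_fin] at this
  rw [← sum_product']
  refine le_trans (le_of_eq (congrArg _ (sum_bij (fun q _ => q.2 ∘ q.1) ?_ ?_ ?_ ?_))) this
  · simp only [mem_product, mem_piFinset, mem_filter, mem_univ, true_and, forall_const, and_true]
    exact fun q h => ⟨⟨fun i j e => q.1.injective (d' _ _ _ (h _)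
      (by rw [show q.2 (q.1 i) = q.2 (q.1 j) from e]; exact h _)), fun _ => trivial⟩,
      fun j => ⟨q.1.symm j, by simpa using h j⟩⟩
  · simp only [mem_product, mem_piFinset, mem_univ, true_and]
    rintro ⟨σ, v⟩ h ⟨τ, u⟩ h' e
    obtain rfl : σ = τ := Equiv.ext fun i => d' _ _ (v (σ i)) (h _) (by
      rw [show v (σ i) = u (τ i) from congrFun e i]; exact h' _)
    exact Prod.ext rfl (σ.surjective.injective_comp_right e)
  · simp only [mem_product, mem_piFinset, mem_filter, mem_univ, true_and, forall_const, and_true]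
    rintro ψ ⟨-, h⟩
    choose ι hι using h
    let σ := Equiv.ofBijective ι (Finite.injective_iff_bijective.mp fun i j e =>
      d' _ _ _ (hι i) (e ▸ hι j))
    exact ⟨(σ.symm, ψ ∘ σ), hι, by ext; simp⟩
  · simp

lemma low {H : SimpleGraph (Fin k)} {G : SimpleGraph V} {U : Fin k → Finset V}
    {p : Fin k → Fin k → ℝ} {i j : Fin k} (ij : i < j) (a : H.Adj i j) (e0 : 0 ≤ ε)
    (d : ∀ i j, i ≠ j → Disjoint (U i) (U j)) (ne : ∀ i, (U i).Nonempty) (p1 : ∀ i j, 0 ≤ p i j ∧ p i j ≤ 1)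
    (R : ∀ i j, i < j → Reg G.Adj ε (p i j) (U i) (U j)) (p2 : ∀ i j, i < j → 1 / 2 ≤ p i j) :
    ((1 / 2) ^ (k * k) - k.factorial * (6 * (k * k) * ε)) * (piFinset U).card ≤
      ∑ σ : Equiv.Perm (Fin k), ∑ v ∈ piFinset U,
        wt H G (v ∘ σ) * (ind (G.Adj (v i) (v j)) - ind (Gᶜ.Adj (v i) (v j))) := by
  have c : ∀ F : Finset (Fin k × Fin k), F.card ≤ k * k := fun F => by simpa using card_le_univ F
  have c' : ∀ F : Finset (Fin k × Fin k), F.card * ε * (piFinset U).card ≤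
      k * k * ε * (piFinset U).card := fun F => by
    gcongr
    exact_mod_cast c F
  have : ∀ σ : Equiv.Perm (Fin k), (ind (σ = 1) * (1 / 2) ^ (k * k) - 6 * (k * k) * ε) *
      (piFinset U).card ≤ ∑ v ∈ piFinset U,
        wt H G (v ∘ σ) * (ind (G.Adj (v i) (v j)) - ind (Gᶜ.Adj (v i) (v j))) := fun σ => by
    obtain ⟨E, hE⟩ : ∃ E : Finset (Fin k × Fin k), ∀ e, e ∈ E ↔
        e.1 < e.2 ∧ H.Adj (σ.symm e.1) (σ.symm e.2) := ⟨univ.filter fun e => e.1 < e.2 ∧
          H.Adj (σ.symm e.1) (σ.symm e.2), by simp⟩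
    have m : ∀ (G : SimpleGraph V) (v : Fin k → V), emb H G (v ∘ σ) ↔
        ∀ e ∈ E, G.Adj (v e.1) (v e.2) := fun G v => by
      refine ⟨fun h e he => by simpa using h _ _ ((hE e).mp he).2, fun h a b r => ?_⟩
      rcases lt_or_gt_of_ne (σ.injective.ne r.ne) with l | l
      · exact h (σ a, σ b) (by simp [hE, l, r])
      · exact (h (σ b, σ a) (by simp [hE, l, r.symm])).symm
    have l1 : ∀ e ∈ E, e.1 < e.2 := fun e he => ((hE e).mp he).1
    have l2 : ∀ e ∈ insert (i, j) E, e.1 < e.2 := by simpa [ij] using l1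
    have q1 : ∀ i j, |p i j| ≤ 1 := fun i j => abs_le.mpr ⟨by linarith [p1 i j], (p1 i j).2⟩
    have q2 : ∀ i j, |1 - p i j| ≤ 1 := fun i j =>
      abs_le.mpr ⟨by linarith [p1 i j], by linarith [p1 i j]⟩
    have R' := fun i j l => (R i j l).compl (d i j l.ne)
    have k1 := abs_le.mp ((cnt e0 q1 R ne _ l1).trans (c' _))
    have k2 := abs_le.mp ((cnt e0 q1 R ne _ l2).trans (c' _))
    have k3 := abs_le.mp ((cnt e0 q2 R' ne _ l1).trans (c' _))
    have k4 := abs_le.mp ((cnt e0 q2 R' ne _ l2).trans (c' _))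
    have k5 : ind (σ = 1) * (1 / 2) ^ (k * k) ≤ 2 * ∏ e ∈ insert (i, j) E, p e.1 e.2 -
        ∏ e ∈ E, p e.1 e.2 + 2 * ∏ e ∈ insert (i, j) E, (1 - p e.1 e.2) -
        ∏ e ∈ E, (1 - p e.1 e.2) := by
      have t0 : 0 ≤ ∏ e ∈ E, (1 - p e.1 e.2) := prod_nonneg fun e _ => by linarith [p1 e.1 e.2]
      by_cases n : (i, j) ∈ E
      · have t1 : (1 / 2 : ℝ) ^ E.card ≤ ∏ e ∈ E, p e.1 e.2 := by
          rw [← prod_const]
          exact prod_le_prod (by simp) fun e he => p2 _ _ (l1 e he)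
        have t2 := pow_le_pow_of_le_one (by norm_num : (0 : ℝ) ≤ 1 / 2) (by norm_num) (c E)
        have t3 : ind (σ = 1) * (1 / 2 : ℝ) ^ (k * k) ≤ (1 / 2) ^ (k * k) := by
          unfold ind
          split_ifs <;> simp
        rw [insert_eq_of_mem n]
        linarith
      · have t1 : ∏ e ∈ E, (1 - p e.1 e.2) ≤ ∏ e ∈ E, p e.1 e.2 := prod_le_prod
          (fun e _ => by linarith [p1 e.1 e.2]) fun e he => by linarith [p2 _ _ (l1 e he)]
        rw [prod_insert n, prod_insert n, ind, if_neg fun e => n ((hE _).mpr ⟨ij, by subst e; exact a⟩)]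
        nlinarith [p2 i j ij]
    have k6 : ∀ v ∈ piFinset U, wt H G (v ∘ σ) *
        (ind (G.Adj (v i) (v j)) - ind (Gᶜ.Adj (v i) (v j))) =
        2 * ind (∀ e ∈ insert (i, j) E, G.Adj (v e.1) (v e.2)) -
        ind (∀ e ∈ E, G.Adj (v e.1) (v e.2)) +
        2 * ind (∀ e ∈ insert (i, j) E, Gᶜ.Adj (v e.1) (v e.2)) -
        ind (∀ e ∈ E, Gᶜ.Adj (v e.1) (v e.2)) := fun v hv => by
      have : Gᶜ.Adj (v i) (v j) ↔ ¬ G.Adj (v i) (v j) := and_iff_right fun e =>
        disjoint_left.mp (d i j ij.ne) (mem_piFinset.mp hv i) (e ▸ mem_piFinset.mp hv j)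
      simp only [wt, m, forall_mem_insert, this]
      generalize (∀ e ∈ E, G.Adj (v e.1) (v e.2)) = x
      generalize (∀ e ∈ E, Gᶜ.Adj (v e.1) (v e.2)) = y
      by_cases x <;> by_cases y <;> by_cases G.Adj (v i) (v j) <;> simp [ind, *] <;> norm_num
    rw [sum_congr rfl k6]
    simp only [sum_sub_distrib, sum_add_distrib, ← mul_sum]
    nlinarith [mul_le_mul_of_nonneg_right k5 (Nat.cast_nonneg (piFinset U).card)]
  refine le_trans (le_of_eq ?_) (sum_le_sum fun σ _ => this σ)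
  simp [← sum_mul, ind, Fintype.card_perm]

lemma lower {H : SimpleGraph (Fin k)} (hH : H ≠ ⊥) : ∃ c > 0, ∃ N, ∀ (V : Type) [Fintype V]
    (G : SimpleGraph V) (M : ℝ), N ≤ Fintype.card V → (∀ S, |tot (wt H G) S| ≤ M) →
    c * Fintype.card V ^ k ≤ M * √(Fintype.card V) := by
  obtain ⟨i, j, ij, a⟩ : ∃ i j, i < j ∧ H.Adj i j := by
    obtain ⟨i, j, a⟩ := SimpleGraph.ne_bot_iff_exists_adj.mp hH
    exact (lt_or_gt_of_ne a.ne).elim (fun l => ⟨i, j, l, a⟩) fun l => ⟨j, i, l, a.symm⟩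
  have k0 : (0 : ℝ) < k := by exact_mod_cast i.pos
  obtain ⟨ε, e0, e1⟩ : ∃ ε : ℝ, 0 < ε ∧ k.factorial * (6 * (k * k) * ε) = (1 / 2) ^ (k * k) / 2 :=
    ⟨(1 / 2) ^ (k * k) / 2 / (k.factorial * (6 * (k * k))), by positivity, by field_simp⟩
  obtain ⟨B, N, h⟩ := parts k e0
  refine ⟨(1 / 2) ^ (k * k) / 2 / (8 * 2 ^ k * (B + 1) ^ k), by positivity, N + 1,
    fun V _ G M n hM => ?_⟩
  obtain ⟨U, p, d, c, p1, R, p2⟩ := h V G (by omega)
  have ne : ∀ i, (U i).Nonempty := fun i => card_pos.mp (Nat.pos_of_mul_pos_left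
    (lt_of_lt_of_le (by omega) (c i)))
  have n0 : (0 : ℝ) < Fintype.card V := by exact_mod_cast (by omega : 0 < Fintype.card V)
  have s0 := Real.sqrt_pos.mpr n0
  have h1 : (1 / 2) ^ (k * k) / 2 * ((piFinset U).card : ℝ) ≤ ∑ σ : Equiv.Perm (Fin k),
      ∑ v ∈ piFinset U, wt H G (v ∘ σ) * (ind (G.Adj (v i) (v j)) - ind (Gᶜ.Adj (v i) (v j))) := by
    rcases p2 with p2 | p2
    · simpa only [e1, sub_half] using low ij a e0.le d ne p1 R p2
    · have := low ij a e0.le d ne (p := fun i j => 1 - p i j) (fun i j => by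
        constructor <;> linarith [p1 i j]) (fun i j l => (R i j l).compl (d i j l.ne))
        fun i j l => by linarith [p2 i j l]
      rw [e1, sub_half] at this
      refine this.trans (le_of_eq (sum_congr rfl fun _ _ => sum_congr rfl fun _ _ => ?_))
      simp only [wt, compl_compl]
      ring
  let φ : V → V → ℝ := fun a b => ∑ σ : Equiv.Perm (Fin k), ∑ v ∈ piFinset U,
    if v j = b then if v i = a then wt H G (v ∘ σ) else 0 else 0
  have sw : ∀ (A B : Finset V) (y : V → V → ℝ), ∑ a ∈ A, ∑ b ∈ B, φ a b * y a b =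
      ∑ σ : Equiv.Perm (Fin k), ∑ v ∈ piFinset U,
        if v i ∈ A ∧ v j ∈ B then wt H G (v ∘ σ) * y (v i) (v j) else 0 := fun A B y => by
    simp only [φ, sum_mul]
    simp only [sum_comm (s := B)]
    simp only [sum_comm (s := A)]
    refine sum_congr rfl fun σ _ => sum_congr rfl fun v _ => ?_
    by_cases v j ∈ B <;> simp [*]
  have h2 := cut φ (2 ^ k * M) (√(Fintype.card V))⁻¹ (by positivity) (by
    rw [inv_pow, Real.sq_sqrt n0.le, mul_inv_cancel₀ n0.ne']) fun A B => by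
      have := trv hM (fun l => (U l).filter fun x => (l = i → x ∈ A) ∧ (l = j → x ∈ B))
        fun a b n => disjoint_filter_filter (d a b n)
      refine le_trans (le_of_eq (congrArg _ ?_)) this
      simpa only [mul_one, ← sum_filter] using (sw A B fun _ _ => 1).trans
        (sum_congr rfl fun σ _ => by
          rw [← sum_filter]
          exact sum_congr (by ext v; simp [forall_and]) fun _ _ => mul_one _)
  have h3 : ∑ a, ∑ b, φ a b * (ind (G.Adj a b) - ind (Gᶜ.Adj a b)) ≤ ∑ a, ∑ b, |φ a b| :=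
    sum_le_sum fun a _ => sum_le_sum fun b _ => (le_abs_self _).trans (by
      rw [abs_mul]
      refine mul_le_of_le_one_right (abs_nonneg _) ?_
      unfold ind
      split_ifs <;> simp)
  simp only [sw, mem_univ, and_self, if_true] at h3
  have h4 : (Fintype.card V : ℝ) ^ k ≤ (B + 1) ^ k * (piFinset U).card := by
    have := prod_le_prod' fun i (_ : i ∈ univ) => (c i).trans
      (Nat.mul_le_mul_right _ (Nat.le_succ B))
    simp only [prod_const, prod_mul_distrib, card_univ, Fintype.card_fin] at this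
    rw [card_piFinset]
    exact_mod_cast this
  rw [inv_mul_le_iff₀ s0] at h2
  rw [div_mul_eq_mul_div, div_le_iff₀ (by positivity)]
  calc _ ≤ (1 / 2) ^ (k * k) / 2 * ((B + 1) ^ k * ((piFinset U).card : ℝ)) := by gcongr
    _ = (B + 1) ^ k * ((1 / 2) ^ (k * k) / 2 * ((piFinset U).card : ℝ)) := by ring
    _ ≤ (B + 1) ^ k * (√(Fintype.card V) * (8 * (2 ^ k * M))) :=
      mul_le_mul_of_nonneg_left (h1.trans (h3.trans h2)) (by positivity)
    _ = _ := by ring

end Pool.Agent.H.MP_e6b4fa_co
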