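import Pool.Agent.H.MP_e6b4fa_co.C

/-! The upper bound for labelled copies, and labelled versus unlabelled copies. -/

namespace Pool.Agent.H.MP_e6b4fa_co
open Finset Classical Fintype SimpleGraph

variable {V : Type} {k : ℕ} [Fintype V]

lemma two {i j : Fin k} (n : i ≠ j) (a b : V) : (Fintype.card V : ℝ) ^ 2 *
    ∑ ψ : Fin k → V, ind (ψ i = a ∧ ψ j = b) = (Fintype.card V : ℝ) ^ k := by
  have u := fun i Ψ => upd (fun _ : Fin k => (univ : Finset V)) i Ψ
  simp only [piFinset_univ, card_univ] at u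
  rw [sq, mul_assoc, ← u i, ← u j]
  simp [ind, n.symm, ite_and]

lemma upper (H : SimpleGraph (Fin k)) (k0 : 0 < k) (n0 : 0 < Fintype.card V) :
    ∃ G : SimpleGraph V, ∀ S, Fintype.card V * |tot (wt H G) S| ≤
      6 * k ^ 2 * Fintype.card V ^ k * √(Fintype.card V) := by
  obtain ⟨N, ⟨e⟩, hN⟩ : ∃ N, Nonempty (Sym2 V ≃ Fin N) ∧ N ≤ Fintype.card V ^ 2 :=
    ⟨_, ⟨Fintype.equivFin _⟩, by
      simpa [sq] using Fintype.card_le_of_surjective (Sym2.mk (α := V)).uncurry Sym2.mk_surjective⟩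
  let gr : (Fin N → Bool) → SimpleGraph V := fun ω => fromEdgeSet {s | ω (e s)}
  have gc : ∀ ω, (gr ω)ᶜ = gr fun i => !ω i := fun ω => by
    ext a b
    simp [gr]
    grind
  obtain ⟨n, hn⟩ : ∃ n : ℝ, n = Fintype.card V := ⟨_, rfl⟩
  have n1 : 1 ≤ n := by rw [hn]; exact_mod_cast n0
  have s0 := Real.sqrt_pos.mpr (one_pos.trans_le n1)
  have k1 : (0 : ℝ) < k := by exact_mod_cast k0
  have bd : ∀ S ω i b, n ^ 2 * |tot (wt H (gr (Function.update ω i b))) S - tot (wt H (gr ω)) S| ≤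
      2 * k ^ 2 * n ^ k := fun S ω i b => by
    obtain ⟨s, rfl⟩ := e.surjective i
    induction s using Sym2.ind with | _ x y =>
    have : ∀ ψ : Fin k → V, |ind (ψ.Injective ∧ ∀ i, ψ i ∈ S) * wt H (gr (Function.update ω
        (e s(x, y)) b)) ψ - ind (ψ.Injective ∧ ∀ i, ψ i ∈ S) * wt H (gr ω) ψ| ≤
        2 * ∑ q ∈ univ.offDiag, ind (ψ q.1 = x ∧ ψ q.2 = y) := fun ψ => by
      have p0 : ∀ q : Fin k × Fin k, 0 ≤ ind (ψ q.1 = x ∧ ψ q.2 = y) := fun q => by
        unfold ind
        split_ifs <;> simp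
      by_cases c : ∃ q ∈ (univ : Finset (Fin k)).offDiag, ψ q.1 = x ∧ ψ q.2 = y
      · obtain ⟨q, hq, c⟩ := c
        have := single_le_sum (fun q _ => p0 q) hq
        rw [ind, if_pos c] at this
        refine le_trans ?_ (mul_le_mul_of_nonneg_left this two_pos.le)
        simp only [wt, ind]
        split_ifs <;> norm_num
      have h : ∀ i j, H.Adj i j → e s(ψ i, ψ j) ≠ e s(x, y) := fun i j a q => by
        rcases Sym2.eq_iff.mp (e.injective q) with q | q
        · exact c ⟨(i, j), by simpa using a.ne, q⟩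
        · exact c ⟨(j, i), by simpa using a.ne', q.symm⟩
      have : ∀ f : Bool → Bool, emb H (gr fun i => f (Function.update ω (e s(x, y)) b i)) ψ ↔
          emb H (gr fun i => f (ω i)) ψ := fun f =>
        forall₃_congr fun i j a => by simp [gr, h i j a]
      have t1 : emb H (gr (Function.update ω (e s(x, y)) b)) ψ ↔ _ := this id
      simp only [wt, gc, this not, t1, id, sub_self, abs_zero]
      exact mul_nonneg two_pos.le (sum_nonneg fun q _ => p0 q)
    rw [tot, tot, ← sum_sub_distrib]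
    refine (mul_le_mul_of_nonneg_left ((abs_sum_le_sum_abs _ _).trans (sum_le_sum fun ψ _ =>
      this ψ)) (by positivity)).trans ?_
    rw [← mul_sum, sum_comm, mul_left_comm, mul_sum, hn,
      sum_congr rfl fun q hq => two (mem_offDiag.mp hq).2.2 x y, sum_const, nsmul_eq_mul, mul_assoc]
    gcongr
    exact_mod_cast (card_le_univ _).trans (by simp [sq])
  obtain ⟨l, l0, hl⟩ : ∃ l : ℝ, 0 < l ∧ l * (2 * k ^ 2 * n ^ k) = n ^ 2 * (√n)⁻¹ :=
    ⟨n ^ 2 * (√n)⁻¹ / (2 * k ^ 2 * n ^ k), by positivity, by field_simp⟩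
  have h1 : ∀ S, ∀ s : ℝ, |s| = l → ∑ ω, Real.exp (s * tot (wt H (gr ω)) S) ≤
      2 ^ N * Real.exp n := fun S s hs => by
    have z : ∑ ω, s * tot (wt H (gr ω)) S = 0 := by
      refine sum_involution (fun ω _ i => !ω i) (fun ω _ => ?_) (fun ω _ h q => h ?_) (by simp)
        (by simp)
      · rw [← gc, ← mul_add, tot, tot, ← sum_add_distrib]
        simp [wt, ← mul_add]
      · simp [tot, wt, gc, q]
    refine (mgf (√n)⁻¹ N _ fun ω i b => ?_).trans ?_
    · rw [← mul_sub, abs_mul, hs]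
      refine le_of_mul_le_mul_left ?_ (show 0 < n ^ 2 by positivity)
      rw [← hl, mul_left_comm]
      exact mul_le_mul_of_nonneg_left (bd S ω i b) l0.le
    · rw [z, zero_div, add_zero, inv_pow, Real.sq_sqrt (by linarith)]
      gcongr
      rw [mul_inv_le_iff₀ (by linarith), hn]
      exact_mod_cast sq (Fintype.card V) ▸ hN
  obtain ⟨ω, -, h⟩ := exists_le_of_sum_le (s := univ) (f := fun ω => ∑ S : Finset V,
      Real.exp (l * |tot (wt H (gr ω)) S|)) (g := fun _ => 2 ^ Fintype.card V * (2 * Real.exp n))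
      univ_nonempty (by
    rw [sum_comm]
    refine (sum_le_card_nsmul _ _ (2 * (2 ^ N * Real.exp n)) fun S _ => ?_).trans (le_of_eq ?_)
    · have := add_le_add (h1 S l (abs_of_pos l0)) (h1 S (-l) (by rw [abs_neg, abs_of_pos l0]))
      rw [← sum_add_distrib] at this
      refine le_trans (sum_le_sum fun ω _ => ?_) (this.trans (by linarith))
      rcases abs_choice (tot (wt H (gr ω)) S) with e | e <;> rw [e]
      · exact le_add_of_nonneg_right (Real.exp_nonneg _)
      · rw [mul_neg, neg_mul]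
        exact le_add_of_nonneg_left (Real.exp_nonneg _)
    · simp
      ring)
  refine ⟨gr ω, fun S => ?_⟩
  have h2 := (single_le_sum (fun _ _ => Real.exp_nonneg _) (mem_univ S)).trans h
  have h3 : (2 : ℝ) ^ Fintype.card V * (2 * Real.exp n) ≤ Real.exp (3 * n) := by
    have : 2 ≤ Real.exp n := by linarith [Real.add_one_le_exp n]
    calc _ ≤ Real.exp 1 ^ Fintype.card V * (Real.exp n * Real.exp n) := by
          gcongr
          linarith [Real.add_one_le_exp 1]
      _ = _ := by rw [← Real.exp_nat_mul, ← Real.exp_add, ← Real.exp_add, ← hn]; ring_nf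
  have h4 := Real.exp_le_exp.mp (h2.trans h3)
  rw [← hn]
  refine le_of_mul_le_mul_left ?_ l0
  have : l * (6 * k ^ 2 * n ^ k * √n) = n * (3 * n) := by
    rw [show l * (6 * k ^ 2 * n ^ k * √n) = 3 * (l * (2 * k ^ 2 * n ^ k)) * √n by ring, hl]
    field_simp
  rw [this, mul_left_comm]
  gcongr

lemma lab (H : SimpleGraph (Fin k)) (G : SimpleGraph V) :
    Nat.card (Copy H G) = Nat.card (H ≃g H) * G.copyCount H := by
  have t : ∀ (G' : G.Subgraph) (e : H ≃g G'.coe), (G'.coeCopy.comp e.toCopy).toSubgraph = G' :=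
    fun G' e => by
      change Subgraph.map (G'.hom.comp e.toHom) ⊤ = G'
      simp [Subgraph.map_comp]
  have := Nat.card_eq_of_bijective (fun q : Σ G' : G.Subgraph, H ≃g G'.coe =>
    q.1.coeCopy.comp q.2.toCopy) ⟨by
      rintro ⟨G1, e1⟩ ⟨G2, e2⟩ h
      obtain rfl : G1 = G2 := (t G1 e1).symm.trans ((congrArg Copy.toSubgraph h).trans (t G2 e2))
      exact congrArg _ (RelIso.ext fun a => Subtype.ext (DFunLike.congr_fun h a)),
    fun f => ⟨⟨_, f.isoToSubgraph⟩, Copy.ext fun a => rfl⟩⟩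
  have f : ∀ G' : G.Subgraph, Finite (H ≃g G'.coe) := fun G' =>
    Finite.of_injective _ DFunLike.coe_injective
  rw [← this, Nat.card_sigma, copyCount, card_filter, mul_sum]
  refine sum_congr rfl fun G' _ => ?_
  split_ifs with c
  · obtain ⟨e⟩ := c
    rw [mul_one]
    exact Nat.card_congr ⟨fun f => e.symm.comp f, fun f => e.comp f, fun f => by ext; simp,
      fun f => by ext; simp⟩
  · simp [not_nonempty_iff.mp c]

lemma link (H : SimpleGraph (Fin k)) (G : SimpleGraph V) (S : Finset V) [Fintype (S : Set V)] :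
    tot (wt H G) S = Nat.card (H ≃g H) *
      (((G.induce S).copyCount H : ℝ) - (G.induce S)ᶜ.copyCount H) := by
  have : ∀ G : SimpleGraph V, ∑ ψ : Fin k → V, ind (ψ.Injective ∧ ∀ i, ψ i ∈ S) * ind (emb H G ψ) =
      Nat.card (H ≃g H) * (G.induce S).copyCount H := fun G => by
    have := Nat.card_eq_of_bijective (fun f : Copy H (G.induce S) =>
      (⟨fun i => f i, ⟨Subtype.val_injective.comp f.injective, fun i => (f i).2⟩,
        fun _ _ a => f.toHom.map_adj a⟩ :
        {ψ : Fin k → V // (ψ.Injective ∧ ∀ i, ψ i ∈ S) ∧ emb H G ψ}))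
      ⟨fun f g h => Copy.ext fun a => Subtype.ext (congrFun (congrArg Subtype.val h) a),
        fun ψ => ⟨⟨⟨fun i => ⟨ψ.1 i, ψ.2.1.2 i⟩, fun a => ψ.2.2 _ _ a⟩,
          fun _ _ e => ψ.2.1.1 (congrArg Subtype.val e)⟩, rfl⟩⟩
    rw [← Nat.cast_mul, ← lab, this]
    rw [Nat.card_eq_fintype_card, Fintype.card_subtype, card_filter]
    push_cast
    refine sum_congr rfl fun ψ _ => ?_
    unfold ind
    split_ifs <;> simp_all
  have c : (G.induce S)ᶜ = Gᶜ.induce S := by
    ext a b
    exact and_congr_left' Subtype.coe_ne_coe.symm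
  simp only [tot, wt, mul_sub, sum_sub_distrib, this, c]

end Pool.Agent.H.MP_e6b4fa_co
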